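import Pool.Agent.Helper4.AE.St

set_option autoImplicit false

/-!
# Project AE, module RB (the Ruzsa numbers are bounded)
-/

namespace Pool.Agent.Helper42.AE

open Pool.Agent.Helper4.AE
open Finset

theorem sg_univ (m : ℕ) [NeZero m] (n : ZMod m) : sg (Finset.univ : Finset (ZMod m)) n = m := by
  unfold sg
  have : ((Finset.univ ×ˢ Finset.univ : Finset (ZMod m × ZMod m)).filter
      fun p => p.1 + p.2 = n) = Finset.univ.image (fun a : ZMod m => (a, n - a)) := by
    ext ⟨a, b⟩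
    simp only [Finset.mem_filter, Finset.mem_product, Finset.mem_univ, true_and, and_self,
      Finset.mem_image, Prod.mk.injEq]
    constructor
    · intro h
      exact ⟨a, rfl, by rw [← h]; ring⟩
    · rintro ⟨c, h1, h2⟩
      rw [← h2, ← h1]; ring
  rw [this, Finset.card_image_of_injective _ (fun a b h => (Prod.mk.inj h).1), Finset.card_univ,
    ZMod.card]

theorem hRB : StRB := by
  intro hTRF hPAR m _
  have key : ∃ r ≤ 11664, ∃ A : Finset (ZMod m), Bs r A := by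
    have hm0 : 1 ≤ m := Nat.one_le_iff_ne_zero.mpr (NeZero.ne m)
    rcases Nat.lt_or_ge m 500 with h | h
    · exact ⟨m, by omega, Finset.univ, fun n => by rw [sg_univ]; exact ⟨hm0, le_refl _⟩⟩
    · have hex : ∃ n : ℕ, m ≤ 4 * n ^ 2 := ⟨m, by nlinarith⟩
      obtain ⟨n₀, hn₀, hmin⟩ : ∃ n₀ : ℕ, m ≤ 4 * n₀ ^ 2 ∧ ∀ k < n₀, ¬ m ≤ 4 * k ^ 2 :=
        ⟨Nat.find hex, Nat.find_spec hex, fun k hk => Nat.find_min hex hk⟩
      have h11 : 11 < n₀ := by
        by_contra hc
        have : n₀ ≤ 11 := by omega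
        have : n₀ ^ 2 ≤ 11 ^ 2 := Nat.pow_le_pow_left this 2
        omega
      obtain ⟨k, rfl⟩ : ∃ k, n₀ = k + 1 := ⟨n₀ - 1, by omega⟩
      have hk := hmin k (by omega)
      obtain ⟨p, hp, h1, h2⟩ := Nat.exists_prime_lt_and_le_two_mul (k + 1) (by omega)
      obtain ⟨A, hA⟩ := hTRF hPAR p m hp (by omega)
        (by
          have : (k + 1) ^ 2 ≤ p ^ 2 := Nat.pow_le_pow_left h1.le 2
          omega)
        (by
          have h3 : p ^ 2 ≤ (2 * (k + 1)) ^ 2 := Nat.pow_le_pow_left h2 2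
          have h4 : 11 ≤ k := by omega
          nlinarith)
      exact ⟨11664, le_refl _, A, hA⟩
  obtain ⟨r, hr, A, hA⟩ := key
  have hne : {r : ℕ | ∃ A : Finset (ZMod m), Bs r A}.Nonempty := ⟨r, A, hA⟩
  have h1 : Rz m ≤ r := Nat.sInf_le (show r ∈ {r : ℕ | ∃ A : Finset (ZMod m), Bs r A} from ⟨A, hA⟩)
  exact ⟨h1.trans hr, Nat.sInf_mem hne⟩

end Pool.Agent.Helper42.AE
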